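import Mathlib

namespace Pool.Agent.Results.MP_b59a08_co.Corners

open Finset

/-- Euclidean 3-space. -/
abbrev E3 : Type := EuclideanSpace ℝ (Fin 3)

/-- `C` is the set of centres of a packing of closed unit balls: disjoint interiors. -/
def IsPacking (C : Finset E3) : Prop :=
  ∀ x ∈ C, ∀ y ∈ C, x ≠ y →
    Disjoint (interior (Metric.closedBall x 1)) (interior (Metric.closedBall y 1))

/-- The number of `r`-element sets of pairwise touching balls (centres at distance `2`). -/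
noncomputable def touching (C : Finset E3) (r : ℕ) : ℕ :=
  {S : Finset E3 | S ⊆ C ∧ S.card = r ∧ ∀ x ∈ S, ∀ y ∈ S, x ≠ y → dist x y = 2}.ncard

abbrev P := ℤ × ℤ × ℤ

def Q (v : P) : ℤ :=
  v.1 ^ 2 + v.2.1 ^ 2 + v.2.2 ^ 2 + v.1 * v.2.1 + v.1 * v.2.2 + v.2.1 * v.2.2

lemma Q_pos (v : P) (h : v ≠ 0) : 1 ≤ Q v := by
  obtain ⟨a, b, c⟩ := v
  by_contra h'
  simp only [Q, not_le] at h'
  have h1 : a + b = 0 := by nlinarith [sq_nonneg (a + b), sq_nonneg (a + c), sq_nonneg (b + c)]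
  have h2 : a + c = 0 := by nlinarith [sq_nonneg (a + b), sq_nonneg (a + c), sq_nonneg (b + c)]
  have h3 : b + c = 0 := by nlinarith [sq_nonneg (a + b), sq_nonneg (a + c), sq_nonneg (b + c)]
  apply h
  simp only [Prod.mk_eq_zero]
  omega

noncomputable def emb (v : P) : E3 :=
  !₂[√2 * (v.1 + v.2.1), √2 * (v.1 + v.2.2), √2 * (v.2.1 + v.2.2)]

lemma dist_emb (x y : P) : dist (emb x) (emb y) = √(4 * (Q (x - y) : ℝ)) := by
  rw [EuclideanSpace.dist_eq, Fin.sum_univ_three]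
  congr 1
  have h : √2 ^ 2 = (2 : ℝ) := Real.sq_sqrt (by norm_num)
  simp only [emb, Real.dist_eq, sq_abs, Q]
  simp
  linear_combination (((x.1 - y.1) + (x.2.1 - y.2.1)) ^ 2 + ((x.1 - y.1) + (x.2.2 - y.2.2)) ^ 2 +
    ((x.2.1 - y.2.1) + (x.2.2 - y.2.2)) ^ 2 : ℝ) * h

lemma two_le (x y : P) (h : x ≠ y) : 2 ≤ dist (emb x) (emb y) := by
  rw [dist_emb]
  apply Real.le_sqrt_of_sq_le
  have : (1 : ℝ) ≤ Q (x - y) := by exact_mod_cast Q_pos _ (sub_ne_zero.2 h)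
  linarith

lemma emb_inj : Function.Injective emb := by
  intro x y h
  by_contra h'
  have := two_le x y h'
  rw [h, dist_self] at this
  linarith

noncomputable def embE : P ↪ E3 := ⟨emb, emb_inj⟩

lemma packing (A : Finset P) : IsPacking (A.map embE) := by
  intro x hx y hy hxy
  obtain ⟨a, -, rfl⟩ := mem_map.1 hx
  obtain ⟨b, -, rfl⟩ := mem_map.1 hy
  rw [interior_closedBall _ one_ne_zero, interior_closedBall _ one_ne_zero]
  apply Metric.ball_disjoint_ball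
  have := two_le a b (fun e => hxy (by rw [e]))
  change 1 + 1 ≤ dist (emb a) (emb b)
  linarith

lemma lower {n : ℕ} (r : ℕ) (τ : Fin n → Finset P) (h1 : ∀ i, (τ i).card = r)
    (h2 : ∀ i, ∀ s ∈ τ i, ∀ t ∈ τ i, s ≠ t → Q (s - t) = 1)
    (h3 : ∀ i j (y z : P), r • y + ∑ s ∈ τ i, s = r • z + ∑ s ∈ τ j, s → (i, y) = (j, z))
    (A : Finset P) (G : Finset (Fin n × P)) (hG : ∀ x ∈ G, ∀ s ∈ τ x.1, x.2 + s ∈ A) :
    G.card ≤ touching (A.map embE) r := by
  rw [← Set.ncard_coe_finset, touching]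
  refine Set.ncard_le_ncard_of_injOn
    (fun x => ((τ x.1).map (addLeftEmbedding x.2)).map embE) ?_ ?_ ?_
  · intro x hx
    refine ⟨map_subset_map.2 ?_, by simp [h1], ?_⟩
    · intro v hv
      obtain ⟨s, hs, rfl⟩ := mem_map.1 hv
      exact hG x hx s hs
    · intro u hu v hv huv
      simp only [mem_map] at hu hv
      obtain ⟨_, ⟨s, hs, rfl⟩, rfl⟩ := hu
      obtain ⟨_, ⟨t, ht, rfl⟩, rfl⟩ := hv
      change dist (emb (x.2 + s)) (emb (x.2 + t)) = 2
      rw [dist_emb, add_sub_add_left_eq_sub, h2 _ s hs t ht (fun e => huv (by rw [e])),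
        show (4 * ((1 : ℤ) : ℝ)) = 2 ^ 2 by norm_num, Real.sqrt_sq (by norm_num)]
  · rintro ⟨i, y⟩ - ⟨j, z⟩ - h
    have h' := congrArg (fun S : Finset P => ∑ s ∈ S, s) (map_injective embE h)
    simp only [sum_map] at h'
    change ∑ s ∈ τ i, (y + s) = ∑ s ∈ τ j, (z + s) at h'
    rw [sum_add_distrib, sum_add_distrib, sum_const, sum_const, h1, h1] at h'
    exact h3 i j y z h'
  · exact (finite_toSet (A.map embE).powerset).subset (fun S hS => mem_coe.2 (mem_powerset.2 hS.1))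

def simplex (L : ℕ) : Finset P :=
  ((range L).sigma fun p => (range (L - p)).sigma fun q => range (L - p - q)).image
    fun x => ((x.1 : ℤ), (x.2.1 : ℤ), (x.2.2 : ℤ))

lemma mem_simplex (L : ℕ) (v : P) :
    v ∈ simplex L ↔ 0 ≤ v.1 ∧ 0 ≤ v.2.1 ∧ 0 ≤ v.2.2 ∧ v.1 + v.2.1 + v.2.2 < L := by
  obtain ⟨a, b, c⟩ := v
  simp only [simplex, mem_image, mem_sigma, mem_range, Prod.mk.injEq]
  constructor
  · rintro ⟨⟨p, q, r⟩, ⟨h1, h2, h3⟩, rfl, rfl, rfl⟩
    simp only at h1 h2 h3 ⊢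
    omega
  · rintro ⟨h1, h2, h3, h4⟩
    refine ⟨⟨a.toNat, b.toNat, c.toNat⟩, ?_, ?_⟩ <;> simp only <;> omega

lemma tri (L : ℕ) : 2 * ∑ q ∈ range L, (L - q) = L * (L + 1) := by
  induction L with
  | zero => simp
  | succ L ih =>
    rw [sum_range_succ']
    simp only [Nat.add_sub_add_right, Nat.sub_zero]
    nlinarith

lemma tet (L : ℕ) : 6 * ∑ p ∈ range L, ∑ q ∈ range (L - p), (L - p - q) =
    L * (L + 1) * (L + 2) := by
  induction L with
  | zero => simp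
  | succ L ih =>
    rw [sum_range_succ']
    simp only [Nat.add_sub_add_right, Nat.sub_zero]
    have := tri (L + 1)
    nlinarith

lemma card_simplex (L : ℕ) : 6 * (simplex L).card = L * (L + 1) * (L + 2) := by
  rw [simplex, card_image_of_injective, ← tet]
  · simp [card_sigma]
  · rintro ⟨p, q, r⟩ ⟨p', q', r'⟩ h
    simp only [Prod.mk.injEq, Nat.cast_inj] at h
    obtain ⟨rfl, rfl, rfl⟩ := h
    rfl

noncomputable def cube (n : ℕ) : Finset P := Ico (0 : ℤ) n ×ˢ Ico (0 : ℤ) n ×ˢ Ico (0 : ℤ) n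

noncomputable def W (n L M : ℕ) : Finset P :=
  cube n \ (simplex L ∪ (simplex M).image fun v => ((n : ℤ) - 1, (n : ℤ) - 1, (n : ℤ) - 1) - v)

lemma mem_flip (n M : ℕ) (v : P) :
    v ∈ (simplex M).image (fun v => ((n : ℤ) - 1, (n : ℤ) - 1, (n : ℤ) - 1) - v) ↔
      v.1 < n ∧ v.2.1 < n ∧ v.2.2 < n ∧ 3 * (n : ℤ) - 3 - (v.1 + v.2.1 + v.2.2) < M := by
  obtain ⟨a, b, c⟩ := v
  simp only [mem_image, mem_simplex]
  constructor
  · rintro ⟨⟨p, q, r⟩, h, e⟩
    simp only [Prod.mk_sub_mk, Prod.mk.injEq] at h e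
    omega
  · intro h
    refine ⟨(n - 1 - a, n - 1 - b, n - 1 - c), ?_, ?_⟩
    · simp only at h ⊢
      omega
    · simp

lemma mem_W (n L M : ℕ) (a b c : ℤ) : (a, b, c) ∈ W n L M ↔ 0 ≤ a ∧ a < n ∧ 0 ≤ b ∧ b < n ∧
    0 ≤ c ∧ c < n ∧ L ≤ a + b + c ∧ M ≤ 3 * (n : ℤ) - 3 - (a + b + c) := by
  simp only [W, mem_sdiff, mem_union, mem_flip, mem_simplex, cube, mem_product, mem_Ico]
  omega

lemma card_W (n L M : ℕ) (h1 : L ≤ n) (h2 : M ≤ n) (h3 : L + M + 2 ≤ 3 * n) :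
    6 * (W n L M).card + L * (L + 1) * (L + 2) + M * (M + 1) * (M + 2) = 6 * n ^ 3 := by
  have e : (cube n).card = n ^ 3 := by
    simp [cube]
    ring
  rw [← card_simplex, ← card_simplex, ← e, W, ← card_sdiff_add_card_eq_card
    (s := simplex L ∪ (simplex M).image fun v => ((n : ℤ) - 1, (n : ℤ) - 1, (n : ℤ) - 1) - v)
    (t := cube n), card_union_of_disjoint, card_image_of_injective _ sub_right_injective]
  · ring
  · rw [disjoint_left]
    intro v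
    rw [mem_simplex, mem_flip]
    omega
  · intro v
    simp only [mem_union, mem_flip, mem_simplex, cube, mem_product, mem_Ico]
    omega

/-- The octahedron with three corners moved onto a face. -/
noncomputable def A (j : ℕ) : Finset P :=
  (W (j + 3) (j + 2) (j + 2) \
    {((j : ℤ) + 2, (j : ℤ) + 2, 0), ((j : ℤ) + 2, 0, (j : ℤ) + 2), (0, (j : ℤ) + 2, (j : ℤ) + 2)}) ∪
    {((j : ℤ) + 1, 0, 0), ((j : ℤ), 1, 0), ((j : ℤ), 0, 1)}

lemma mem_A (j : ℕ) (a b c : ℤ) : (a, b, c) ∈ A j ↔ (0 ≤ a ∧ a ≤ j + 2 ∧ 0 ≤ b ∧ b ≤ j + 2 ∧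
    0 ≤ c ∧ c ≤ j + 2 ∧ j + 2 ≤ a + b + c ∧ a + b + c ≤ 2 * j + 4 ∧ a + b < 2 * j + 4 ∧
      a + c < 2 * j + 4 ∧ b + c < 2 * j + 4) ∨ (a = j + 1 ∧ b = 0 ∧ c = 0) ∨
      (a = j ∧ b = 1 ∧ c = 0) ∨ (a = j ∧ b = 0 ∧ c = 1) := by
  simp only [A, mem_union, mem_sdiff, mem_W, mem_insert, mem_singleton, Prod.mk.injEq]
  omega

lemma card_A (j : ℕ) : 3 * (A j).card = 2 * (j + 3) ^ 3 + (j + 3) := by
  have h := card_W (j + 3) (j + 2) (j + 2) (by omega) (by omega) (by omega)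
  rw [A, card_union_of_disjoint, card_eq_three.2 ⟨_, _, _, _, _, _, rfl⟩]
  · have := card_sdiff_add_card_eq_card (s := {((j : ℤ) + 2, (j : ℤ) + 2, 0),
      ((j : ℤ) + 2, 0, (j : ℤ) + 2), (0, (j : ℤ) + 2, (j : ℤ) + 2)})
      (t := W (j + 3) (j + 2) (j + 2)) (by
        simp only [insert_subset_iff, singleton_subset_iff, mem_W]
        omega)
    rw [card_eq_three.2 ⟨_, _, _, _, _, _, rfl⟩] at this
    · nlinarith
    all_goals simp only [ne_eq, Prod.mk.injEq]; omega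
  · simp only [ne_eq, Prod.mk.injEq]; omega
  · simp only [ne_eq, Prod.mk.injEq]; omega
  · simp only [ne_eq, Prod.mk.injEq]; omega
  · simp only [disjoint_insert_right, disjoint_singleton_right, mem_sdiff, mem_W]
    omega

def T3 : Fin 8 → Finset P := ![{(0, 0, 0), (-1, 1, 0), (-1, 0, 1)}, {(0, 0, 0), (0, 1, 0), (0, 0, 1)},
  {(0, 0, 0), (1, 0, 0), (0, 0, 1)}, {(0, 0, 0), (1, 0, 0), (0, 1, 0)},
  {(0, 0, 0), (1, -1, 0), (1, 0, -1)}, {(0, 0, 0), (0, -1, 0), (0, 0, -1)},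
  {(0, 0, 0), (-1, 0, 0), (0, 0, -1)}, {(0, 0, 0), (-1, 0, 0), (0, -1, 0)}]

def T4 : Fin 2 → Finset P := ![{(0, 0, 0), (1, 0, 0), (0, 1, 0), (0, 0, 1)},
  {(0, 0, 0), (-1, 0, 0), (0, -1, 0), (0, 0, -1)}]

def base (m : ℤ) (x : Fin 8 × P) : Fin 8 × P :=
  (x.1, ![(x.2.1 + 1, x.2.2.1, x.2.2.2), (2 * m - 1 - x.2.1 - x.2.2.1 - x.2.2.2, x.2.1, x.2.2.1),
    (x.2.1, 2 * m - 1 - x.2.1 - x.2.2.1 - x.2.2.2, x.2.2.1),
    (x.2.1, x.2.2.1, 2 * m - 1 - x.2.1 - x.2.2.1 - x.2.2.2),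
    (m - x.2.1 - 1, m - x.2.2.1, m - x.2.2.2),
    (1 - m + x.2.1 + x.2.2.1 + x.2.2.2, m - x.2.1, m - x.2.2.1),
    (m - x.2.1, 1 - m + x.2.1 + x.2.2.1 + x.2.2.2, m - x.2.2.1),
    (m - x.2.1, m - x.2.2.1, 1 - m + x.2.1 + x.2.2.1 + x.2.2.2)] x.1)

lemma base_inj (m : ℤ) : Function.Injective (base m) := by
  rintro ⟨i, p, q, r⟩ ⟨j, p', q', r'⟩ h
  obtain rfl : i = j := congrArg Prod.fst h
  fin_cases i <;> simp [base] at h ⊢ <;> omega

def Rm (m : ℤ) : List (Fin 8 × P) := [(1, m, 0, m - 1), (1, m, m - 1, 0), (2, 0, m, m - 1),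
  (2, m - 1, m, 0), (3, 0, m - 1, m), (3, m - 1, 0, m), (4, 0, m, m), (4, m - 1, 1, m),
  (4, m - 1, m, 1), (5, 0, m, m), (6, m, 0, m), (7, m, m, 0)]

def Nw (m : ℤ) : List (Fin 8 × P) := [(0, m - 1, 0, 0), (1, m - 2, 0, 1), (1, m - 2, 1, 0),
  (1, m - 1, 0, 0), (2, m - 2, 0, 1), (2, m - 2, 1, 0), (2, m - 1, 0, 0), (3, m - 2, 0, 1),
  (3, m - 2, 1, 0), (3, m - 1, 0, 0), (5, m - 2, 1, 1), (6, m - 1, 0, 1), (7, m - 1, 1, 0)]

lemma triples (j : ℕ) :
    8 * (W (j + 2) (j + 1) j).card + 1 ≤ touching ((A j).map embE) 3 := by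
  refine le_trans ?_ (lower 3 T3 (by decide) (by decide) ?_ (A j)
    (((univ ×ˢ W (j + 2) (j + 1) j).image (base (j + 2)) \ (Rm (j + 2)).toFinset) ∪
      (Nw (j + 2)).toFinset) ?_)
  · rw [card_union_of_disjoint, List.toFinset_card_of_nodup (l := Nw _) (by simp [Nw])]
    · have h1 := le_card_sdiff (Rm (j + 2)).toFinset
        ((univ ×ˢ W (j + 2) (j + 1) j).image (base (j + 2)))
      have h2 := List.toFinset_card_le (Rm (j + 2))
      rw [card_image_of_injective _ (base_inj _), card_product, card_univ, Fintype.card_fin] at h1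
      have h3 : (Rm (j + 2)).length = 12 := rfl
      have h4 : (Nw (j + 2)).length = 13 := rfl
      omega
    · rw [disjoint_left]
      intro x hx hx'
      obtain ⟨⟨i, p, q, r⟩, h, rfl⟩ := mem_image.1 (mem_sdiff.1 hx).1
      rw [mem_product, mem_W] at h
      replace h := h.2
      fin_cases i <;> simp [base, Nw] at hx' <;> omega
  · rintro i i' ⟨a, b, c⟩ ⟨a', b', c'⟩
    fin_cases i <;> fin_cases i' <;> simp [T3] <;> omega
  · intro x hx
    rcases mem_union.1 hx with hx | hx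
    · obtain ⟨hx, hx'⟩ := mem_sdiff.1 hx
      obtain ⟨⟨i, p, q, r⟩, h, rfl⟩ := mem_image.1 hx
      rw [mem_product, mem_W] at h
      replace h := h.2
      fin_cases i <;> simp [base, Rm, T3, mem_A] at hx' ⊢ <;> omega
    · simp only [Nw, List.mem_toFinset, List.mem_cons, List.not_mem_nil, or_false] at hx
      rcases hx with rfl | rfl | rfl | rfl | rfl | rfl | rfl | rfl | rfl | rfl | rfl | rfl | rfl <;>
        simp [T3, mem_A] <;> omega

def base4 (m : ℤ) (x : Fin 2 × P) : Fin 2 × P :=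
  (x.1, ![x.2, (m - x.2.1, m - x.2.2.1, m - x.2.2.2)] x.1)

lemma base4_inj (m : ℤ) : Function.Injective (base4 m) := by
  rintro ⟨i, p, q, r⟩ ⟨j, p', q', r'⟩ h
  obtain rfl : i = j := congrArg Prod.fst h
  fin_cases i <;> simp [base4] at h ⊢ <;> omega

lemma quads (j : ℕ) :
    2 * (W (j + 2) (j + 2) j).card + 1 ≤ touching ((A j).map embE) 4 := by
  refine le_trans ?_ (lower 4 T4 (by decide) (by decide) ?_ (A j)
    (insert (0, (j : ℤ) + 1, 0, 0) ((univ ×ˢ W (j + 2) (j + 2) j).image (base4 (j + 2)))) ?_)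
  · rw [card_insert_of_notMem, card_image_of_injective _ (base4_inj _), card_product, card_univ,
      Fintype.card_fin]
    intro hx
    obtain ⟨⟨i, p, q, r⟩, h, e⟩ := mem_image.1 hx
    rw [mem_product, mem_W] at h
    replace h := h.2
    fin_cases i <;> simp [base4] at e
    omega
  · rintro i i' ⟨a, b, c⟩ ⟨a', b', c'⟩
    fin_cases i <;> fin_cases i' <;> simp [T4] <;> omega
  · intro x hx
    rcases mem_insert.1 hx with rfl | hx
    · simp [T4, mem_A]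
      omega
    · obtain ⟨⟨i, p, q, r⟩, h, rfl⟩ := mem_image.1 hx
      rw [mem_product, mem_W] at h
      replace h := h.2
      fin_cases i <;> simp [base4, T4, mem_A] <;> omega

/-- For every `k ≥ 3` some packing of `n_k` unit balls has more than `t_k` touching triplets and
more than `q_k` touching quadruples. -/
theorem result (k : ℕ) (hk : 3 ≤ k) : ∃ C : Finset E3, IsPacking C ∧
    (C.card : ℝ) = (2 * k ^ 3 + k) / 3 ∧
    (4 / 3 : ℝ) * (k - 1) * k * (4 * k - 5) < touching C 3 ∧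
    (4 / 3 : ℝ) * (k - 2) * (k - 1) * k < touching C 4 := by
  obtain ⟨j, rfl⟩ : ∃ j, k = j + 3 := ⟨k - 3, by omega⟩
  have h1 : ((3 * (A j).card : ℕ) : ℝ) = (2 * (j + 3) ^ 3 + (j + 3) : ℕ) := by rw [card_A]
  have h2 : ((8 * (W (j + 2) (j + 1) j).card + 1 : ℕ) : ℝ) ≤ touching ((A j).map embE) 3 := by
    exact_mod_cast triples j
  have h3 : ((2 * (W (j + 2) (j + 2) j).card + 1 : ℕ) : ℝ) ≤ touching ((A j).map embE) 4 := by
    exact_mod_cast quads j
  have h4 := congrArg (Nat.cast : ℕ → ℝ)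
    (card_W (j + 2) (j + 1) j (by omega) (by omega) (by omega))
  have h5 := congrArg (Nat.cast : ℕ → ℝ)
    (card_W (j + 2) (j + 2) j (by omega) (by omega) (by omega))
  push_cast at h1 h2 h3 h4 h5 ⊢
  refine ⟨(A j).map embE, packing _, ?_, ?_, ?_⟩
  · rw [card_map]
    linarith
  · nlinarith
  · nlinarith

end Pool.Agent.Results.MP_b59a08_co.Corners
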